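import Mathlib
import Pool.Agent.LibMP471f68.Defs
import Pool.Agent.LibMP471f68.Proof

open Pool.Agent.LibMP471f68

namespace Pool.Agent.Results.MP_471f68_co.Spanning

/-- **Theorem.** Let `d ≥ 2` and let `(V, F; I)` be an incidence structure whose incidence graph
is `2d`-vertex-connected. Then for all generic normals the set `I` has the same rank as `V × F` in
the row matroid of the parallel `d`-scene matrix; that is, `I` spans the generic `d`-parallel
matroid on `V × F`. -/
theorem result (d : ℕ) (hd : 2 ≤ d) {V F : Type*} [Fintype V] [Fintype F] [DecidableEq V]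
    [DecidableEq F] (I : Set (V × F)) (hconn : VertexConnected (2 * d) (incidenceGraph I))
    (a : F → Fin (d - 1) → ℝ)
    (ha : AlgebraicIndependent ℚ (fun s : F × Fin (d - 1) => a s.1 s.2)) :
    ((sceneMatrix d a).submatrix (fun e : I => (e : V × F)) id).rank = (sceneMatrix (V := V) d a).rank :=
  spans d hd I hconn a ha

end Pool.Agent.Results.MP_471f68_co.Spanning
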